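import Pool.Agent.Helper37.H2.Hom

/-!
# Type 2: the chain of curves and its points
-/

set_option autoImplicit false

namespace Pool.Agent.Helper37.H2

open MvPolynomial Pool.Agent.Helper24.H2
open Pool.Agent.Helper28.HN (I Un En cr aff)

section basic

variable {m : ℕ} {S : Type*} [CommRing S]

theorem ch_zero (c : Ix m → S) (x0 ξ0 y1 : I m → S) :
    ch c x0 ξ0 y1 0 = (fun i => Polynomial.C (x0 i) + Polynomial.X * Polynomial.C (ξ0 i),
      fun i => Polynomial.C (y1 i)) := rfl

theorem ch_even (c : Ix m → S) (x0 ξ0 y1 : I m → S) {N : ℕ} (hN : Even N) :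
    ch c x0 ξ0 y1 (N + 1) = ((ch c x0 ξ0 y1 N).1,
      ny (fun e => Polynomial.C (c e)) (ch c x0 ξ0 y1 N).1 (ch c x0 ξ0 y1 N).2) := by
  rw [ch, if_pos (Nat.even_iff.1 hN)]

theorem ch_odd (c : Ix m → S) (x0 ξ0 y1 : I m → S) {N : ℕ} (hN : Odd N) :
    ch c x0 ξ0 y1 (N + 1) =
      (nx (fun e => Polynomial.C (c e)) (ch c x0 ξ0 y1 N).1 (ch c x0 ξ0 y1 N).2,
        (ch c x0 ξ0 y1 N).2) := by
  rw [ch, if_neg]
  have := Nat.odd_iff.1 hN
  omega

theorem ch_map {T : Type*} [CommRing T] (f : S →+* T) (c : Ix m → S) (x0 ξ0 y1 : I m → S) (N : ℕ) :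
    (∀ i, (ch (fun e => f (c e)) (fun i => f (x0 i)) (fun i => f (ξ0 i)) (fun i => f (y1 i)) N).1 i =
      ((ch c x0 ξ0 y1 N).1 i).map f) ∧
    ∀ i, (ch (fun e => f (c e)) (fun i => f (x0 i)) (fun i => f (ξ0 i)) (fun i => f (y1 i)) N).2 i =
      ((ch c x0 ξ0 y1 N).2 i).map f := by
  induction N with
  | zero =>
    refine ⟨fun i => ?_, fun i => ?_⟩
    · rw [ch_zero, ch_zero]
      simp
    · rw [ch_zero, ch_zero]
      simp
  | succ N ih =>
    have hc : (fun e => Polynomial.mapRingHom f (Polynomial.C (c e))) = fun e => Polynomial.C (f (c e)) := by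
      funext e
      simp
    have h1 : (fun i => Polynomial.mapRingHom f ((ch c x0 ξ0 y1 N).1 i)) =
        (ch (fun e => f (c e)) (fun i => f (x0 i)) (fun i => f (ξ0 i)) (fun i => f (y1 i)) N).1 := by
      funext i
      rw [ih.1 i]
      rfl
    have h2 : (fun i => Polynomial.mapRingHom f ((ch c x0 ξ0 y1 N).2 i)) =
        (ch (fun e => f (c e)) (fun i => f (x0 i)) (fun i => f (ξ0 i)) (fun i => f (y1 i)) N).2 := by
      funext i
      rw [ih.2 i]
      rfl
    rcases Nat.even_or_odd N with hN | hN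
    · rw [ch_even _ _ _ _ hN, ch_even _ _ _ _ hN]
      refine ⟨fun i => ih.1 i, fun i => ?_⟩
      have h := map_ny (Polynomial.mapRingHom f) (fun e => Polynomial.C (c e)) (ch c x0 ξ0 y1 N).1
        (ch c x0 ξ0 y1 N).2 i
      rw [hc, h1, h2] at h
      exact h.symm
    · rw [ch_odd _ _ _ _ hN, ch_odd _ _ _ _ hN]
      refine ⟨fun i => ?_, fun i => ih.2 i⟩
      have h := map_nx (Polynomial.mapRingHom f) (fun e => Polynomial.C (c e)) (ch c x0 ξ0 y1 N).1
        (ch c x0 ξ0 y1 N).2 i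
      rw [hc, h1, h2] at h
      exact h.symm

end basic

section linear

variable {m : ℕ} {S : Type*} [CommRing S]

theorem bf_lin_right (c : Ix m → S) (r : Bi m) (a b : S) (x y y' : I m → S) :
    bf c r x (fun i => a * y i + b * y' i) = a * bf c r x y + b * bf c r x y' := by
  simp only [bf, Finset.mul_sum, ← Finset.sum_add_distrib]
  refine Finset.sum_congr rfl fun i _ => Finset.sum_congr rfl fun j _ => ?_
  ring

theorem bf_lin_left (c : Ix m → S) (r : Bi m) (a b : S) (x x' y : I m → S) :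
    bf c r (fun i => a * x i + b * x' i) y = a * bf c r x y + b * bf c r x' y := by
  simp only [bf, Finset.mul_sum, ← Finset.sum_add_distrib]
  refine Finset.sum_congr rfl fun i _ => Finset.sum_congr rfl fun j _ => ?_
  ring

theorem sf_comm (c : Ix m → S) (x x' y : I m → S) : sf c x x' y = sf c x' x y := by
  simp only [sf]
  rw [Finset.sum_comm]
  refine Finset.sum_congr rfl fun i _ => Finset.sum_congr rfl fun j _ =>
    Finset.sum_congr rfl fun k _ => ?_
  ring

theorem tf_comm (c : Ix m → S) (x y y' : I m → S) : tf c x y y' = tf c x y' y := by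
  simp only [tf]
  refine Finset.sum_congr rfl fun i _ => ?_
  rw [Finset.sum_comm]
  refine Finset.sum_congr rfl fun j _ => Finset.sum_congr rfl fun k _ => ?_
  ring

theorem sf_lin1 (c : Ix m → S) (a b : S) (x1 x2 x' y : I m → S) :
    sf c (fun i => a * x1 i + b * x2 i) x' y = a * sf c x1 x' y + b * sf c x2 x' y := by
  simp only [sf, Finset.mul_sum, ← Finset.sum_add_distrib]
  refine Finset.sum_congr rfl fun i _ => Finset.sum_congr rfl fun j _ =>
    Finset.sum_congr rfl fun k _ => ?_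
  ring

theorem sf_lin2 (c : Ix m → S) (a b : S) (x x1 x2 y : I m → S) :
    sf c x (fun i => a * x1 i + b * x2 i) y = a * sf c x x1 y + b * sf c x x2 y := by
  rw [sf_comm, sf_lin1, sf_comm c x1, sf_comm c x2]

theorem sf_lin3 (c : Ix m → S) (a b : S) (x x' y1 y2 : I m → S) :
    sf c x x' (fun i => a * y1 i + b * y2 i) = a * sf c x x' y1 + b * sf c x x' y2 := by
  simp only [sf, Finset.mul_sum, ← Finset.sum_add_distrib]
  refine Finset.sum_congr rfl fun i _ => Finset.sum_congr rfl fun j _ =>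
    Finset.sum_congr rfl fun k _ => ?_
  ring

theorem tf_lin1 (c : Ix m → S) (a b : S) (x1 x2 y y' : I m → S) :
    tf c (fun i => a * x1 i + b * x2 i) y y' = a * tf c x1 y y' + b * tf c x2 y y' := by
  simp only [tf, Finset.mul_sum, ← Finset.sum_add_distrib]
  refine Finset.sum_congr rfl fun i _ => Finset.sum_congr rfl fun j _ =>
    Finset.sum_congr rfl fun k _ => ?_
  ring

theorem tf_lin2 (c : Ix m → S) (a b : S) (x y1 y2 y' : I m → S) :
    tf c x (fun i => a * y1 i + b * y2 i) y' = a * tf c x y1 y' + b * tf c x y2 y' := by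
  simp only [tf, Finset.mul_sum, ← Finset.sum_add_distrib]
  refine Finset.sum_congr rfl fun i _ => Finset.sum_congr rfl fun j _ =>
    Finset.sum_congr rfl fun k _ => ?_
  ring

theorem tf_lin3 (c : Ix m → S) (a b : S) (x y y1 y2 : I m → S) :
    tf c x y (fun i => a * y1 i + b * y2 i) = a * tf c x y y1 + b * tf c x y y2 := by
  rw [tf_comm, tf_lin2, tf_comm c x y1, tf_comm c x y2]

theorem lx_lin (c : Ix m → S) (r : Fin m) (a b : S) (x y y' : I m → S) :
    lx c r x (fun i => a * y i + b * y' i) = a * lx c r x y + b * lx c r x y' := by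
  unfold lx
  split_ifs
  · exact bf_lin_right c _ a b x y y'
  · exact sf_lin3 c a b x x y y'

theorem ly_lin (c : Ix m → S) (r : Fin m) (a b : S) (x x' y : I m → S) :
    ly c r (fun i => a * x i + b * x' i) y = a * ly c r x y + b * ly c r x' y := by
  unfold ly
  split_ifs
  · exact bf_lin_left c _ a b x x' y
  · exact tf_lin1 c a b x x' y y

theorem bf_single_right (c : Ix m → S) (r : Bi m) (x y : I m → S) :
    bf c r x y = ∑ j, y j * bf c r x (Pi.single j 1) := by
  have h : ∀ j, bf c r x (Pi.single j 1) = ∑ i, c (.inl (r, i, j)) * x i := by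
    intro j
    unfold bf
    refine Finset.sum_congr rfl fun i _ => ?_
    rw [Finset.sum_eq_single j]
    · rw [Pi.single_eq_same, mul_one]
    · intro b _ hb
      rw [Pi.single_eq_of_ne hb, mul_zero]
    · intro hj
      exact absurd (Finset.mem_univ j) hj
  simp only [h]
  simp only [bf, Finset.mul_sum]
  rw [Finset.sum_comm]
  refine Finset.sum_congr rfl fun j _ => Finset.sum_congr rfl fun i _ => ?_
  ring

theorem bf_single_left (c : Ix m → S) (r : Bi m) (x y : I m → S) :
    bf c r x y = ∑ i, x i * bf c r (Pi.single i 1) y := by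
  have h : ∀ i, bf c r (Pi.single i 1) y = ∑ j, c (.inl (r, i, j)) * y j := by
    intro i
    unfold bf
    rw [Finset.sum_eq_single i]
    · refine Finset.sum_congr rfl fun j _ => ?_
      rw [Pi.single_eq_same, mul_one]
    · intro b _ hb
      refine Finset.sum_eq_zero fun j _ => ?_
      rw [Pi.single_eq_of_ne hb, mul_zero, zero_mul]
    · intro hj
      exact absurd (Finset.mem_univ i) hj
  simp only [h]
  simp only [bf, Finset.mul_sum]
  refine Finset.sum_congr rfl fun i _ => Finset.sum_congr rfl fun j _ => ?_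
  ring

theorem sf_single (c : Ix m → S) (x x' y : I m → S) :
    sf c x x' y = ∑ k, y k * sf c x x' (Pi.single k 1) := by
  have h : ∀ k, sf c x x' (Pi.single k 1) =
      ∑ i, ∑ j, (c (.inr (.inl (i, j, k))) + c (.inr (.inl (j, i, k)))) * x i * x' j := by
    intro k
    unfold sf
    refine Finset.sum_congr rfl fun i _ => Finset.sum_congr rfl fun j _ => ?_
    rw [Finset.sum_eq_single k]
    · rw [Pi.single_eq_same, mul_one]
    · intro b _ hb
      rw [Pi.single_eq_of_ne hb, mul_zero]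
    · intro hj
      exact absurd (Finset.mem_univ k) hj
  have e : sf c x x' y = ∑ i, ∑ j, ∑ k,
      y k * ((c (.inr (.inl (i, j, k))) + c (.inr (.inl (j, i, k)))) * x i * x' j) := by
    unfold sf
    refine Finset.sum_congr rfl fun i _ => Finset.sum_congr rfl fun j _ =>
      Finset.sum_congr rfl fun k _ => ?_
    ring
  rw [e]
  simp only [h, Finset.mul_sum]
  calc ∑ i, ∑ j, ∑ k, y k * ((c (.inr (.inl (i, j, k))) + c (.inr (.inl (j, i, k)))) * x i * x' j)
      = ∑ i, ∑ k, ∑ j, y k * ((c (.inr (.inl (i, j, k))) + c (.inr (.inl (j, i, k)))) * x i * x' j) := by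
        refine Finset.sum_congr rfl fun i _ => ?_
        rw [Finset.sum_comm]
    _ = _ := by rw [Finset.sum_comm]

theorem tf_single (c : Ix m → S) (x y y' : I m → S) :
    tf c x y y' = ∑ i, x i * tf c (Pi.single i 1) y y' := by
  have h : ∀ i, tf c (Pi.single i 1) y y' =
      ∑ j, ∑ k, (c (.inr (.inr (i, j, k))) + c (.inr (.inr (i, k, j)))) * y j * y' k := by
    intro i
    unfold tf
    rw [Finset.sum_eq_single i]
    · refine Finset.sum_congr rfl fun j _ => Finset.sum_congr rfl fun k _ => ?_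
      rw [Pi.single_eq_same, mul_one]
    · intro b _ hb
      refine Finset.sum_eq_zero fun j _ => Finset.sum_eq_zero fun k _ => ?_
      rw [Pi.single_eq_of_ne hb, mul_zero, zero_mul, zero_mul]
    · intro hj
      exact absurd (Finset.mem_univ i) hj
  simp only [h]
  simp only [tf, Finset.mul_sum]
  refine Finset.sum_congr rfl fun i _ => Finset.sum_congr rfl fun j _ =>
    Finset.sum_congr rfl fun k _ => ?_
  ring

theorem lx_expand (c : Ix m → S) (r : Fin m) (x y : I m → S) :
    lx c r x y = ∑ j, y j * lx c r x (Pi.single j 1) := by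
  unfold lx
  split_ifs
  · exact bf_single_right c _ x y
  · exact sf_single c x x y

theorem ly_expand (c : Ix m → S) (r : Fin m) (x y : I m → S) :
    ly c r x y = ∑ i, x i * ly c r (Pi.single i 1) y := by
  unfold ly
  split_ifs
  · exact bf_single_left c _ x y
  · exact tf_single c x y y

theorem lx_Y1 (c : Ix m → S) (r : Fin m) (x : I m → S) : lx c r x (Y1 c x) = 0 := by
  rw [lx_expand, Fin.sum_univ_succ, Fin.sum_univ_succ]
  have h1 : Y1 c x 0 = 0 := rfl
  have h2 : Y1 c x (Fin.succ 0) = (Mx c x).det := rfl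
  have h3 : ∀ b : Fin m, Y1 c x b.succ.succ =
      -(((Mx c x).adjugate.mulVec fun r => lx c r x (Pi.single 1 1)) b) := fun b => rfl
  rw [h1, h2, zero_mul, zero_add]
  have h4 : ∑ b : Fin m, Y1 c x b.succ.succ * lx c r x (Pi.single b.succ.succ 1) =
      -((Mx c x).mulVec ((Mx c x).adjugate.mulVec fun r => lx c r x (Pi.single 1 1)) r) := by
    rw [Matrix.mulVec, dotProduct, ← Finset.sum_neg_distrib]
    refine Finset.sum_congr rfl fun b _ => ?_
    rw [h3 b]
    show _ = -(lx c r x (Pi.single b.succ.succ 1) * _)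
    ring
  rw [h4, Matrix.mulVec_mulVec, Matrix.mul_adjugate, Matrix.smul_mulVec, Matrix.one_mulVec]
  show (Mx c x).det * lx c r x (Pi.single 1 1) + -((Mx c x).det * lx c r x (Pi.single 1 1)) = 0
  ring

theorem lx_Y0 (c : Ix m → S) (r : Fin m) (x : I m → S) : lx c r x (Y0 c x) = 0 := by
  rw [lx_expand, Fin.sum_univ_succ, Fin.sum_univ_succ]
  have h1 : Y0 c x 0 = (Mx c x).det := rfl
  have h2 : Y0 c x (Fin.succ 0) = 0 := rfl
  have h3 : ∀ b : Fin m, Y0 c x b.succ.succ =
      -(((Mx c x).adjugate.mulVec fun r => lx c r x (Pi.single 0 1)) b) := fun b => rfl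
  rw [h1, h2, zero_mul, zero_add]
  have h4 : ∑ b : Fin m, Y0 c x b.succ.succ * lx c r x (Pi.single b.succ.succ 1) =
      -((Mx c x).mulVec ((Mx c x).adjugate.mulVec fun r => lx c r x (Pi.single 0 1)) r) := by
    rw [Matrix.mulVec, dotProduct, ← Finset.sum_neg_distrib]
    refine Finset.sum_congr rfl fun b _ => ?_
    rw [h3 b]
    show _ = -(lx c r x (Pi.single b.succ.succ 1) * _)
    ring
  rw [h4, Matrix.mulVec_mulVec, Matrix.mul_adjugate, Matrix.smul_mulVec, Matrix.one_mulVec]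
  show (Mx c x).det * lx c r x (Pi.single 0 1) + -((Mx c x).det * lx c r x (Pi.single 0 1)) = 0
  ring

theorem lx_yh (c : Ix m → S) (x : I m → S) (z : S) (r : Fin m) : lx c r x (yh c x z) = 0 := by
  have e : yh c x z = fun i => 1 * Y0 c x i + z * Y1 c x i := by
    funext i
    rw [one_mul]
    rfl
  rw [e, lx_lin, lx_Y0, lx_Y1]
  ring

theorem ly_xh (c : Ix m → S) (r : Fin m) (y : I m → S) : ly c r (xh c y) y = 0 := by
  rw [ly_expand, Fin.sum_univ_succ, Fin.sum_univ_castSucc]
  have h1 : xh c y 0 = 0 := rfl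
  have h2 : xh c y (Fin.last m).succ = (Nx c y).det := by
    show vh c y (Fin.last m) = _
    rw [vh, Fin.snoc_last]
  have h3 : ∀ b : Fin m, xh c y b.castSucc.succ =
      -(((Nx c y).adjugate.mulVec fun r => ly c r (Pi.single (Fin.last (m + 1)) 1) y) b) := by
    intro b
    show vh c y b.castSucc = _
    rw [vh, Fin.snoc_castSucc]
    rfl
  rw [h1, h2, zero_mul, zero_add]
  have h4 : ∑ b : Fin m, xh c y b.castSucc.succ * ly c r (Pi.single b.castSucc.succ 1) y =
      -((Nx c y).mulVec ((Nx c y).adjugate.mulVec fun r => ly c r (Pi.single (Fin.last (m + 1)) 1) y) r) := by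
    rw [Matrix.mulVec, dotProduct, ← Finset.sum_neg_distrib]
    refine Finset.sum_congr rfl fun b _ => ?_
    rw [h3 b]
    show _ = -(ly c r (Pi.single b.castSucc.succ 1) y * _)
    ring
  rw [h4, Matrix.mulVec_mulVec, Matrix.mul_adjugate, Matrix.smul_mulVec, Matrix.one_mulVec]
  show -((Nx c y).det * ly c r (Pi.single (Fin.last (m + 1)) 1) y) +
    (Nx c y).det * ly c r (Pi.single (Fin.last (m + 1)) 1) y = 0
  ring

theorem det_y (c : Ix m → S) (x y : I m → S) (h : ∀ r, lx c r x y = 0) (i : I m) :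
    (Mx c x).det * y i = y 0 * Y0 c x i + y 1 * Y1 c x i := by
  refine Fin.cases ?_ (fun j => Fin.cases ?_ (fun b => ?_) j) i
  · simp only [Y0, Y1, Fin.cons_zero]
    ring
  · simp only [Y0, Y1, Fin.cons_succ, Fin.cons_zero]
    have e1 : (Fin.succ 0 : Fin (m + 2)) = 1 := rfl
    rw [e1]
    ring
  · simp only [Y0, Y1, Fin.cons_succ, Pi.neg_apply]
    have h1 : (Mx c x).mulVec (fun b : Fin m => y b.succ.succ) =
        fun r => - (y 0 * lx c r x (Pi.single 0 1) + y 1 * lx c r x (Pi.single 1 1)) := by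
      funext r
      have h2 := lx_expand c r x y
      rw [h r, Fin.sum_univ_succ, Fin.sum_univ_succ] at h2
      have h3 : (Mx c x).mulVec (fun b : Fin m => y b.succ.succ) r =
          ∑ b : Fin m, y b.succ.succ * lx c r x (Pi.single b.succ.succ 1) := by
        rw [Matrix.mulVec, dotProduct]
        refine Finset.sum_congr rfl fun b _ => ?_
        show lx c r x (Pi.single b.succ.succ 1) * _ = _
        ring
      rw [h3]
      have e1 : (Fin.succ 0 : Fin (m + 2)) = 1 := rfl
      rw [e1] at h2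
      linear_combination -h2
    have h4 : (Mx c x).det * y b.succ.succ =
        (Mx c x).adjugate.mulVec ((Mx c x).mulVec (fun b : Fin m => y b.succ.succ)) b := by
      rw [Matrix.mulVec_mulVec, Matrix.adjugate_mul, Matrix.smul_mulVec, Matrix.one_mulVec]
      rfl
    rw [h4, h1]
    have h5 : (fun r => - (y 0 * lx c r x (Pi.single 0 1) + y 1 * lx c r x (Pi.single 1 1))) =
        (- y 0) • (fun r => lx c r x (Pi.single 0 1)) +
          (- y 1) • fun r => lx c r x (Pi.single 1 1) := by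
      funext r
      simp only [Pi.add_apply, Pi.smul_apply, smul_eq_mul]
      ring
    rw [h5, Matrix.mulVec_add, Matrix.mulVec_smul, Matrix.mulVec_smul]
    simp only [Pi.add_apply, Pi.smul_apply, smul_eq_mul]
    ring

theorem ny_eq (c : Ix m → S) (x y : I m → S) :
    ny c x y = fun i => Ah c x * y i + -(2 * tf c x y (Y1 c x)) * Y1 c x i := by
  funext i
  simp only [ny]
  ring

theorem nx_eq (c : Ix m → S) (x y : I m → S) :
    nx c x y = fun i => sf c (xh c y) (xh c y) y * x i + -(2 * sf c x (xh c y) y) * xh c y i := by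
  funext i
  simp only [nx]
  ring

theorem bf_of_lx {c : Ix m → S} {x y : I m → S} (h : ∀ r, lx c r x y = 0) (r : Bi m) :
    bf c r x y = 0 := by
  have := h r.1
  rw [lx, dif_pos r.2] at this
  exact this

theorem bf_of_ly {c : Ix m → S} {x y : I m → S} (h : ∀ r, ly c r x y = 0) (r : Bi m) :
    bf c r x y = 0 := by
  have := h r.1
  rw [ly, dif_pos r.2] at this
  exact this

theorem onX_iff_lx (c : Ix m → S) (x y : I m → S) (hm : 1 ≤ m) :
    OnX c x y ↔ (∀ r, lx c r x y = 0) ∧ tf c x y y = 0 := by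
  constructor
  · rintro ⟨h1, h2, h3⟩
    refine ⟨fun r => ?_, h3⟩
    unfold lx
    split_ifs with h
    · exact h1 _
    · exact h2
  · rintro ⟨h1, h2⟩
    refine ⟨bf_of_lx h1, ?_, h2⟩
    have h3 := h1 ⟨m - 1, by omega⟩
    rw [lx, dif_neg] at h3
    · exact h3
    · show ¬ (m - 1 + 1 < m)
      omega

theorem onX_iff_ly (c : Ix m → S) (x y : I m → S) (hm : 1 ≤ m) :
    OnX c x y ↔ (∀ r, ly c r x y = 0) ∧ sf c x x y = 0 := by
  constructor
  · rintro ⟨h1, h2, h3⟩
    refine ⟨fun r => ?_, h2⟩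
    unfold ly
    split_ifs with h
    · exact h1 _
    · exact h3
  · rintro ⟨h1, h2⟩
    refine ⟨bf_of_ly h1, h2, ?_⟩
    have h3 := h1 ⟨m - 1, by omega⟩
    rw [ly, dif_neg] at h3
    · exact h3
    · show ¬ (m - 1 + 1 < m)
      omega

theorem onX_ny (hm : 1 ≤ m) (c : Ix m → S) (x y : I m → S) (h : OnX c x y) : OnX c x (ny c x y) := by
  rw [onX_iff_lx c x y hm] at h
  rw [onX_iff_lx c x _ hm]
  refine ⟨fun r => ?_, ?_⟩
  · rw [ny_eq, lx_lin, h.1 r, lx_Y1]
    ring
  · rw [ny_eq, tf_lin2, tf_lin3, tf_lin3, h.2, tf_comm c x (Y1 c x) y,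
      show tf c x (Y1 c x) (Y1 c x) = Ah c x from rfl]
    ring

theorem onX_nx (hm : 1 ≤ m) (c : Ix m → S) (x y : I m → S) (h : OnX c x y) : OnX c (nx c x y) y := by
  rw [onX_iff_ly c x y hm] at h
  rw [onX_iff_ly c _ y hm]
  refine ⟨fun r => ?_, ?_⟩
  · rw [nx_eq, ly_lin, h.1 r, ly_xh]
    ring
  · rw [nx_eq, sf_lin1, sf_lin2, sf_lin2, h.2, sf_comm c (xh c y) x]
    ring

/-- The points of the start line. -/
theorem onX_line (c : Ix m → S) (x0 ξ0 y1 : I m → S) (t : S) (l0 : ∀ r, bf c r x0 y1 = 0)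
    (l1 : ∀ r, bf c r ξ0 y1 = 0) (q0 : tf c x0 y1 y1 = 0) (q1 : tf c ξ0 y1 y1 = 0)
    (s0 : sf c x0 x0 y1 = 0) (s1 : sf c x0 ξ0 y1 = 0) (s2 : sf c ξ0 ξ0 y1 = 0) :
    OnX c (fun i => x0 i + t * ξ0 i) y1 := by
  have hx : (fun i => x0 i + t * ξ0 i) = fun i => 1 * x0 i + t * ξ0 i := by
    funext i
    rw [one_mul]
  rw [hx]
  refine ⟨fun r => ?_, ?_, ?_⟩
  · rw [bf_lin_left, l0, l1]
    ring
  · rw [sf_lin1, sf_lin2, sf_lin2, sf_comm c ξ0 x0, s0, s1, s2]
    ring
  · rw [tf_lin1, q0, q1]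
    ring

/-- The curves of the chain lie on the complete intersection. -/
theorem onX_ch (hm : 1 ≤ m) (c : Ix m → S) (x0 ξ0 y1 : I m → S) (l0 : ∀ r, bf c r x0 y1 = 0)
    (l1 : ∀ r, bf c r ξ0 y1 = 0) (q0 : tf c x0 y1 y1 = 0) (q1 : tf c ξ0 y1 y1 = 0)
    (s0 : sf c x0 x0 y1 = 0) (s1 : sf c x0 ξ0 y1 = 0) (s2 : sf c ξ0 ξ0 y1 = 0) (N : ℕ) :
    OnX (fun e => Polynomial.C (c e)) (ch c x0 ξ0 y1 N).1 (ch c x0 ξ0 y1 N).2 := by
  induction N with
  | zero =>
    rw [ch_zero]
    have hb : ∀ (r : Bi m) (x : I m → S), bf (fun e => Polynomial.C (c e)) r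
        (fun i => Polynomial.C (x i)) (fun i => Polynomial.C (y1 i)) =
          Polynomial.C (bf c r x y1) := fun r x => (map_bf Polynomial.C c r x y1).symm
    have hs : ∀ (x x' : I m → S), sf (fun e => Polynomial.C (c e)) (fun i => Polynomial.C (x i))
        (fun i => Polynomial.C (x' i)) (fun i => Polynomial.C (y1 i)) =
        Polynomial.C (sf c x x' y1) := fun x x' => (map_sf Polynomial.C c x x' y1).symm
    have ht : ∀ (x : I m → S), tf (fun e => Polynomial.C (c e)) (fun i => Polynomial.C (x i))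
        (fun i => Polynomial.C (y1 i)) (fun i => Polynomial.C (y1 i)) =
        Polynomial.C (tf c x y1 y1) := fun x => (map_tf Polynomial.C c x y1 y1).symm
    refine onX_line (fun e => Polynomial.C (c e)) (fun i => Polynomial.C (x0 i))
      (fun i => Polynomial.C (ξ0 i)) (fun i => Polynomial.C (y1 i)) Polynomial.X
      (fun r => ?_) (fun r => ?_) ?_ ?_ ?_ ?_ ?_
    · rw [hb, l0, map_zero]
    · rw [hb, l1, map_zero]
    · rw [ht, q0, map_zero]
    · rw [ht, q1, map_zero]
    · rw [hs, s0, map_zero]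
    · rw [hs, s1, map_zero]
    · rw [hs, s2, map_zero]
  | succ N ih =>
    rcases Nat.even_or_odd N with hN | hN
    · rw [ch_even _ _ _ _ hN]
      exact onX_ny hm _ _ _ ih
    · rw [ch_odd _ _ _ _ hN]
      exact onX_nx hm _ _ _ ih

end linear

section rz

variable {m : ℕ} {k : Type*} [Field k] {c : Ix m → k} {x0 ξ0 y1 : I m → k} {N : ℕ} {x y : I m → k}

theorem Rz_scale (h : Rz c x0 ξ0 y1 N x y) {a b : k} (ha : a ≠ 0) (hb : b ≠ 0) :
    Rz c x0 ξ0 y1 N (fun i => a * x i) (fun i => b * y i) := by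
  obtain ⟨τ, α, β, hα, hβ, h1, h2⟩ := h
  refine ⟨τ, a * α, b * β, mul_ne_zero ha hα, mul_ne_zero hb hβ, fun i => ?_, fun i => ?_⟩
  · show a * x i = _
    rw [h1 i]
    ring
  · show b * y i = _
    rw [h2 i]
    ring

theorem eval_ny (X Y : I m → Polynomial k) (τ : k) (i : I m) :
    (ny (fun e => Polynomial.C (c e)) X Y i).eval τ =
      ny c (fun i => (X i).eval τ) (fun i => (Y i).eval τ) i := by
  have h := map_ny (Polynomial.evalRingHom τ) (fun e => Polynomial.C (c e)) X Y i
  simpa using h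

theorem eval_nx (X Y : I m → Polynomial k) (τ : k) (i : I m) :
    (nx (fun e => Polynomial.C (c e)) X Y i).eval τ =
      nx c (fun i => (X i).eval τ) (fun i => (Y i).eval τ) i := by
  have h := map_nx (Polynomial.evalRingHom τ) (fun e => Polynomial.C (c e)) X Y i
  simpa using h

/-- The point over the same `x` on the next curve. -/
theorem Rz_ny (hm : 1 ≤ m) (hN : Even N) (h : Rz c x0 ξ0 y1 N x y) :
    Rz c x0 ξ0 y1 (N + 1) x (ny c x y) := by
  obtain ⟨τ, α, β, hα, hβ, h1, h2⟩ := h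
  refine ⟨τ, α, α ^ (2 * m + 3) * β, hα, mul_ne_zero (pow_ne_zero _ hα) hβ, fun i => ?_, fun i => ?_⟩
  · rw [ch_even _ _ _ _ hN]
    exact h1 i
  · rw [ch_even _ _ _ _ hN, eval_ny, ← ny_smul hm, ← funext h1, ← funext h2]

/-- The point over the same `y` on the next curve. -/
theorem Rz_nx (hm : 1 ≤ m) (hN : Odd N) (h : Rz c x0 ξ0 y1 N x y) :
    Rz c x0 ξ0 y1 (N + 1) (nx c x y) y := by
  obtain ⟨τ, α, β, hα, hβ, h1, h2⟩ := h
  refine ⟨τ, α * β ^ (2 * m + 3), β, mul_ne_zero hα (pow_ne_zero _ hβ), hβ, fun i => ?_, fun i => ?_⟩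
  · rw [ch_odd _ _ _ _ hN, eval_nx, ← nx_smul hm, ← funext h1, ← funext h2]
  · rw [ch_odd _ _ _ _ hN]
    exact h2 i

theorem Rz_map {k' : Type*} [Field k'] (f : k →+* k') (h : Rz c x0 ξ0 y1 N x y) :
    Rz (fun e => f (c e)) (fun i => f (x0 i)) (fun i => f (ξ0 i)) (fun i => f (y1 i)) N
      (fun i => f (x i)) (fun i => f (y i)) := by
  obtain ⟨τ, α, β, hα, hβ, h1, h2⟩ := h
  refine ⟨f τ, f α, f β, (map_ne_zero f).2 hα, (map_ne_zero f).2 hβ, fun i => ?_, fun i => ?_⟩
  · show f (x i) = _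
    rw [h1 i, map_mul, (ch_map f c x0 ξ0 y1 N).1 i, Polynomial.eval_map_apply]
  · show f (y i) = _
    rw [h2 i, map_mul, (ch_map f c x0 ξ0 y1 N).2 i, Polynomial.eval_map_apply]

/-- The start: the line `{x0 + t ξ0} × {y1}`. -/
theorem Rz_start (c : Ix m → k) (x0 ξ0 y1 : I m → k) (t : k) :
    Rz c x0 ξ0 y1 0 (fun i => x0 i + t * ξ0 i) y1 := by
  refine ⟨t, 1, 1, one_ne_zero, one_ne_zero, fun i => ?_, fun i => ?_⟩
  · show x0 i + t * ξ0 i =
      1 * Polynomial.eval t (Polynomial.C (x0 i) + Polynomial.X * Polynomial.C (ξ0 i))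
    simp only [Polynomial.eval_add, Polynomial.eval_mul, Polynomial.eval_C, Polynomial.eval_X,
      one_mul]
  · show y1 i = 1 * Polynomial.eval t (Polynomial.C (y1 i))
    simp

theorem onX_smul (c : Ix m → k) (a b : k) (x y : I m → k) (h : OnX c x y) :
    OnX c (fun i => a * x i) (fun i => b * y i) := by
  refine ⟨fun r => ?_, ?_, ?_⟩
  · rw [bf_smul, h.1 r, mul_zero]
  · rw [sf_smul, h.2.1, mul_zero]
  · rw [tf_smul, h.2.2, mul_zero]

/-- The points of the curves lie on the complete intersection. -/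
theorem Rz_onX (hm : 1 ≤ m) (l0 : ∀ r, bf c r x0 y1 = 0)
    (l1 : ∀ r, bf c r ξ0 y1 = 0) (q0 : tf c x0 y1 y1 = 0) (q1 : tf c ξ0 y1 y1 = 0)
    (s0 : sf c x0 x0 y1 = 0) (s1 : sf c x0 ξ0 y1 = 0) (s2 : sf c ξ0 ξ0 y1 = 0)
    (h : Rz c x0 ξ0 y1 N x y) : OnX c x y := by
  obtain ⟨τ, α, β, hα, hβ, h1, h2⟩ := h
  rw [funext h1, funext h2]
  refine onX_smul c α β _ _ ?_
  have h3 := onX_ch hm c x0 ξ0 y1 l0 l1 q0 q1 s0 s1 s2 N
  refine ⟨fun r => ?_, ?_, ?_⟩
  · have h4 := congrArg (Polynomial.evalRingHom τ) (h3.1 r)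
    rw [map_bf] at h4
    simpa using h4
  · have h4 := congrArg (Polynomial.evalRingHom τ) h3.2.1
    rw [map_sf] at h4
    simpa using h4
  · have h4 := congrArg (Polynomial.evalRingHom τ) h3.2.2
    rw [map_tf] at h4
    simpa using h4

theorem fst_ne (h : Rz c x0 ξ0 y1 N x y) {i : I m} (hi : x i ≠ 0) : (ch c x0 ξ0 y1 N).1 i ≠ 0 := by
  obtain ⟨τ, α, β, hα, hβ, h1, h2⟩ := h
  intro h0
  rw [h1 i, h0] at hi
  simp at hi

theorem snd_ne (h : Rz c x0 ξ0 y1 N x y) {i : I m} (hi : y i ≠ 0) : (ch c x0 ξ0 y1 N).2 i ≠ 0 := by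
  obtain ⟨τ, α, β, hα, hβ, h1, h2⟩ := h
  intro h0
  rw [h2 i, h0] at hi
  simp at hi

end rz

section forms

variable {m : ℕ} {K' k : Type*} [Field K'] [Field k] [Algebra K' k] {c : Ix m → K'}
  {x0 ξ0 y1 : I m → K'} {N : ℕ} {x y : I m → k}

theorem eval_smul_form {F : MvPolynomial (I m) k} {e : ℕ} (hF : F.IsHomogeneous e) (a : k) (x : I m → k) :
    MvPolynomial.eval (fun i => a * x i) F = a ^ e * MvPolynomial.eval x F := by
  rw [MvPolynomial.eval_eq, MvPolynomial.eval_eq, Finset.mul_sum]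
  refine Finset.sum_congr rfl fun d hd => ?_
  have h1 := hF (MvPolynomial.mem_support_iff.1 hd)
  have h2 : ∑ i ∈ d.support, d i = e := by
    rw [← h1, Finsupp.weight_apply]
    simp [Finsupp.sum]
  rw [← h2, ← Finset.prod_pow_eq_pow_sum]
  simp only [mul_pow, Finset.prod_mul_distrib]
  ring

theorem aeval_eval (X : I m → Polynomial k) (F : MvPolynomial (I m) k) (τ : k) :
    (aeval X F).eval τ = MvPolynomial.eval (fun i => (X i).eval τ) F := by
  induction F using MvPolynomial.induction_on with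
  | C a => simp
  | add p q hp hq => simp only [map_add, Polynomial.eval_add, hp, hq]
  | mul_X p n hp => simp only [map_mul, Polynomial.eval_mul, hp, aeval_X, MvPolynomial.eval_X]

/-- A form which vanishes on the curve `N` vanishes at all its points. -/
theorem aeval_fst_zero {F : MvPolynomial (I m) k} {e : ℕ} (hF : F.IsHomogeneous e)
    (h0 : aeval (fun i => ((ch c x0 ξ0 y1 N).1 i).map (algebraMap K' k)) F = 0)
    (h : Rz (fun e => algebraMap K' k (c e)) (fun i => algebraMap K' k (x0 i))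
      (fun i => algebraMap K' k (ξ0 i)) (fun i => algebraMap K' k (y1 i)) N x y) :
    MvPolynomial.eval x F = 0 := by
  obtain ⟨τ, α, β, hα, hβ, h1, h2⟩ := h
  have h3 := congrArg (Polynomial.eval τ) h0
  rw [aeval_eval, Polynomial.eval_zero] at h3
  rw [funext h1, eval_smul_form hF]
  have h4 : (fun i => ((ch (fun e => algebraMap K' k (c e)) (fun i => algebraMap K' k (x0 i))
      (fun i => algebraMap K' k (ξ0 i)) (fun i => algebraMap K' k (y1 i)) N).1 i).eval τ) =
      fun i => (((ch c x0 ξ0 y1 N).1 i).map (algebraMap K' k)).eval τ := by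
    funext i
    rw [(ch_map (algebraMap K' k) c x0 ξ0 y1 N).1 i]
  rw [h4, h3, mul_zero]

/-- A form which vanishes on the curve `N` vanishes at all its points. -/
theorem aeval_snd_zero {F : MvPolynomial (I m) k} {e : ℕ} (hF : F.IsHomogeneous e)
    (h0 : aeval (fun i => ((ch c x0 ξ0 y1 N).2 i).map (algebraMap K' k)) F = 0)
    (h : Rz (fun e => algebraMap K' k (c e)) (fun i => algebraMap K' k (x0 i))
      (fun i => algebraMap K' k (ξ0 i)) (fun i => algebraMap K' k (y1 i)) N x y) :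
    MvPolynomial.eval y F = 0 := by
  obtain ⟨τ, α, β, hα, hβ, h1, h2⟩ := h
  have h3 := congrArg (Polynomial.eval τ) h0
  rw [aeval_eval, Polynomial.eval_zero] at h3
  rw [funext h2, eval_smul_form hF]
  have h4 : (fun i => ((ch (fun e => algebraMap K' k (c e)) (fun i => algebraMap K' k (x0 i))
      (fun i => algebraMap K' k (ξ0 i)) (fun i => algebraMap K' k (y1 i)) N).2 i).eval τ) =
      fun i => (((ch c x0 ξ0 y1 N).2 i).map (algebraMap K' k)).eval τ := by
    funext i
    rw [(ch_map (algebraMap K' k) c x0 ξ0 y1 N).2 i]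
  rw [h4, h3, mul_zero]

end forms

end Pool.Agent.Helper37.H2
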