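import Pool.Agent.Helper28.H2.Cfg
import Pool.Agent.Helper37.H2.Chain

/-!
# Type 2: the pieces CHAIN, ZERO and a part of LINE of `Helper28/H2/Pieces`
-/

set_option autoImplicit false

namespace Pool.Agent.Helper37.H2.P

open MvPolynomial Pool.Agent.Helper24.H2 Pool.Agent.Helper28.H2
open Pool.Agent.Helper28.HN (I Un En cr aff cp ee)

section line

variable {m : ℕ} {S : Type*} [CommRing S] (c : Ix m → S) (x y ξ : I m → S) (z w α β : S)

theorem lx_yh (r : Fin m) : lx c r x (yh c x z) = 0 := H2.lx_yh c x z r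

theorem ly_xh (r : Fin m) : ly c r (xh c y) y = 0 := H2.ly_xh c r y

theorem yh_zero : yh c x z 0 = (Mx c x).det := by
  show (Mx c x).det + z * 0 = _
  rw [mul_zero, add_zero]

theorem yh_one : yh c x z 1 = z * (Mx c x).det := by
  show 0 + z * (Mx c x).det = _
  rw [zero_add]

theorem xh_zero : xh c y 0 = 0 := rfl

theorem det_y (h : ∀ r, lx c r x y = 0) (i : I m) :
    (Mx c x).det * y i = y 0 * Y0 c x i + y 1 * Y1 c x i := H2.det_y c x y h i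

theorem onX_iff_lx (hm : 1 ≤ m) : OnX c x y ↔ (∀ r, lx c r x y = 0) ∧ tf c x y y = 0 :=
  H2.onX_iff_lx c x y hm

theorem onX_iff_ly (hm : 1 ≤ m) : OnX c x y ↔ (∀ r, ly c r x y = 0) ∧ sf c x x y = 0 :=
  H2.onX_iff_ly c x y hm

theorem Fh_eq : Fh c x z = Ah c x * z ^ 2 + 2 * Bh c x * z + Ch c x := by
  have e : yh c x z = fun i => 1 * Y0 c x i + z * Y1 c x i := by
    funext i
    rw [one_mul]
    rfl
  rw [Fh, e, H2.tf_lin2, H2.tf_lin3, H2.tf_lin3, H2.tf_comm c x (Y1 c x) (Y0 c x), Ah, Bh, Ch]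
  ring

theorem yh_smul (hm : 1 ≤ m) : yh c (fun i => α * x i) z = fun i => α ^ (m + 1) * yh c x z i :=
  H2.yh_smul hm c α x z

theorem xh_smul (hm : 1 ≤ m) : xh c (fun i => β * y i) = fun i => β ^ (m + 1) * xh c y i :=
  H2.xh_smul hm c β y

theorem Ah_smul (hm : 1 ≤ m) : Ah c (fun i => α * x i) = α ^ (2 * m + 3) * Ah c x :=
  H2.Ah_smul hm c α x

theorem ny_smul (hm : 1 ≤ m) : ny c (fun i => α * x i) (fun i => β * y i) =
    fun i => α ^ (2 * m + 3) * β * ny c x y i := by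
  funext i
  exact H2.ny_smul hm c α β x y i

theorem nx_smul (hm : 1 ≤ m) : nx c (fun i => α * x i) (fun i => β * y i) =
    fun i => α * β ^ (2 * m + 3) * nx c x y i := by
  funext i
  exact H2.nx_smul hm c α β x y i

theorem ny_yh (h : Ah c x * w = - 2 * Bh c x - Ah c x * z) :
    ny c x (yh c x z) = fun i => Ah c x * yh c x w i := by
  have h1 : tf c x (yh c x z) (Y1 c x) = Bh c x + z * Ah c x := by
    have e : yh c x z = fun i => 1 * Y0 c x i + z * Y1 c x i := by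
      funext i
      rw [one_mul]
      rfl
    rw [e, H2.tf_lin2, Bh, Ah]
    ring
  funext i
  show Ah c x * (Y0 c x i + z * Y1 c x i) - 2 * tf c x (yh c x z) (Y1 c x) * Y1 c x i =
    Ah c x * (Y0 c x i + w * Y1 c x i)
  rw [h1]
  linear_combination (- Y1 c x i) * h

theorem onX_ny (hm : 1 ≤ m) (h : OnX c x y) : OnX c x (ny c x y) := H2.onX_ny hm c x y h

theorem onX_nx (hm : 1 ≤ m) (h : OnX c x y) : OnX c (nx c x y) y := H2.onX_nx hm c x y h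

end line

section chain

variable {m : ℕ} {K : Type*} [Field K] (c : Ix m → K) (x0 ξ0 y1 : I m → K)

/-- all curves lie on the variety (over `K[t]`) -/
theorem ch_onX (hm : 1 ≤ m) (l0 : ∀ r, bf c r x0 y1 = 0) (l1 : ∀ r, bf c r ξ0 y1 = 0)
    (q0 : tf c x0 y1 y1 = 0) (q1 : tf c ξ0 y1 y1 = 0) (s0 : sf c x0 x0 y1 = 0)
    (s1 : sf c x0 ξ0 y1 = 0) (s2 : sf c ξ0 ξ0 y1 = 0) (N : ℕ) :
    OnX (fun e => Polynomial.C (c e)) (ch c x0 ξ0 y1 N).1 (ch c x0 ξ0 y1 N).2 :=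
  H2.onX_ch hm c x0 ξ0 y1 l0 l1 q0 q1 s0 s1 s2 N

theorem rz_onX (hm : 1 ≤ m) (l0 : ∀ r, bf c r x0 y1 = 0) (l1 : ∀ r, bf c r ξ0 y1 = 0)
    (q0 : tf c x0 y1 y1 = 0) (q1 : tf c ξ0 y1 y1 = 0) (s0 : sf c x0 x0 y1 = 0)
    (s1 : sf c x0 ξ0 y1 = 0) (s2 : sf c ξ0 ξ0 y1 = 0) (N : ℕ)
    (x y : I m → K) (h : Rz c x0 ξ0 y1 N x y) : OnX c x y :=
  H2.Rz_onX hm l0 l1 q0 q1 s0 s1 s2 h

/-- the start -/
theorem rz_start (hm : 1 ≤ m) (t : K) (l0 : ∀ r, bf c r x0 y1 = 0)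
    (l1 : ∀ r, bf c r ξ0 y1 = 0) (s0 : sf c x0 x0 y1 = 0)
    (s1 : sf c x0 ξ0 y1 = 0) (s2 : sf c ξ0 ξ0 y1 = 0)
    (_h0 : x0 0 = 1) (_hx0 : ξ0 0 = 0) (z w : K) (h1 : y1 1 = z * y1 0) (h2 : y1 0 ≠ 0)
    (hA : Ah c (fun i => x0 i + t * ξ0 i) ≠ 0) (hD : (Mx c (fun i => x0 i + t * ξ0 i)).det ≠ 0)
    (hw : Ah c (fun i => x0 i + t * ξ0 i) * w =
      - 2 * Bh c (fun i => x0 i + t * ξ0 i) - Ah c (fun i => x0 i + t * ξ0 i) * z) :
    Rz c x0 ξ0 y1 1 (fun i => x0 i + t * ξ0 i) (yh c (fun i => x0 i + t * ξ0 i) w) := by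
  have hs := H2.Rz_start c x0 ξ0 y1 t
  have hl : ∀ r, lx c r (fun i => x0 i + t * ξ0 i) y1 = 0 := by
    intro r
    have e : (fun i => x0 i + t * ξ0 i) = fun i => 1 * x0 i + t * ξ0 i := by
      funext i
      ring
    rw [e]
    unfold lx
    split_ifs with hr
    · rw [H2.bf_lin_left, l0, l1]
      ring
    · rw [H2.sf_lin1, H2.sf_lin2, H2.sf_lin2, H2.sf_comm c ξ0 x0, s0, s1, s2]
      ring
  generalize (fun i => x0 i + t * ξ0 i) = x at hs hl hA hD hw ⊢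
  have h3 : y1 = fun i => y1 0 / (Mx c x).det * yh c x z i := by
    funext i
    have h4 := det_y c x y1 hl i
    rw [h1] at h4
    have h5 : (Mx c x).det * y1 i = y1 0 * yh c x z i := by
      rw [h4]
      show _ = y1 0 * (Y0 c x i + z * Y1 c x i)
      ring
    field_simp
    linear_combination h5
  have h6 := H2.Rz_ny hm (by norm_num : Even 0) hs
  have h7 : ny c x y1 = fun i => y1 0 / (Mx c x).det * Ah c x * yh c x w i := by
    have h8 := ny_smul c x (yh c x z) 1 (y1 0 / (Mx c x).det) hm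
    have h9 : (fun i => 1 * x i) = x := by
      funext i
      rw [one_mul]
    rw [h9, ← h3, one_pow, one_mul] at h8
    rw [h8, ny_yh c x z w hw]
    funext i
    ring
  have hb : y1 0 / (Mx c x).det * Ah c x ≠ 0 := mul_ne_zero (div_ne_zero h2 hD) hA
  have h10 := H2.Rz_scale h6 one_ne_zero (inv_ne_zero hb)
  have h11 : (fun i => 1 * x i) = x := by
    funext i
    rw [one_mul]
  have h12 : (fun i => (y1 0 / (Mx c x).det * Ah c x)⁻¹ * ny c x y1 i) = yh c x w := by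
    funext i
    rw [h7]
    show (y1 0 / (Mx c x).det * Ah c x)⁻¹ * (y1 0 / (Mx c x).det * Ah c x * yh c x w i) = _
    rw [← mul_assoc, inv_mul_cancel₀ hb, one_mul]
  rw [h11, h12] at h10
  exact h10

/-- the involution over `y` -/
theorem rz_nx (hm : 1 ≤ m) (N : ℕ) (x : I m → K) (z t : K) (h : Rz c x0 ξ0 y1 (2 * N + 1) x (yh c x z))
    (hk : kah c x z ≠ 0) (ht : t * kah c x z = 2 * psh c x z) (hD : (Mx c x).det ≠ 0)
    (hD' : (Mx c (fun i => x i - t * xh c (yh c x z) i)).det ≠ 0) :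
    Rz c x0 ξ0 y1 (2 * N + 2) (fun i => x i - t * xh c (yh c x z) i)
      (yh c (fun i => x i - t * xh c (yh c x z) i) z) := by
  have h1 := H2.Rz_nx hm (⟨N, rfl⟩ : Odd (2 * N + 1)) h
  have h2 : nx c x (yh c x z) = fun i => kah c x z * (x i - t * xh c (yh c x z) i) := by
    funext i
    show kah c x z * x i - 2 * psh c x z * xh c (yh c x z) i = _
    linear_combination (xh c (yh c x z) i) * ht
  have hl : ∀ r, lx c r (fun i => x i - t * xh c (yh c x z) i) (yh c x z) = 0 := by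
    have hX := lx_yh c x z
    have hY := ly_xh c (yh c x z)
    have e : (fun i => x i - t * xh c (yh c x z) i) =
        fun i => 1 * x i + (-t) * xh c (yh c x z) i := by
      funext i
      ring
    have hs : sf c x x (yh c x z) = 0 := by
      have := hX ⟨m - 1, by omega⟩
      rw [lx, dif_neg] at this
      · exact this
      · show ¬ (m - 1 + 1 < m)
        omega
    intro r
    rw [e]
    unfold lx
    split_ifs with hr
    · rw [H2.bf_lin_left, H2.bf_of_lx hX, H2.bf_of_ly hY]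
      ring
    · rw [H2.sf_lin1, H2.sf_lin2, H2.sf_lin2, H2.sf_comm c (xh c (yh c x z)) x, hs,
        show sf c x (xh c (yh c x z)) (yh c x z) = psh c x z from rfl,
        show sf c (xh c (yh c x z)) (xh c (yh c x z)) (yh c x z) = kah c x z from rfl]
      linear_combination t * ht
  have h5 := H2.Rz_scale h1 (inv_ne_zero hk) (div_ne_zero hD' hD)
  have h6 : (fun i => (kah c x z)⁻¹ * nx c x (yh c x z) i) =
      fun i => x i - t * xh c (yh c x z) i := by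
    funext i
    rw [h2]
    show (kah c x z)⁻¹ * (kah c x z * (x i - t * xh c (yh c x z) i)) = _
    rw [← mul_assoc, inv_mul_cancel₀ hk, one_mul]
  rw [h6] at h5
  generalize (fun i => x i - t * xh c (yh c x z) i) = x' at hD' hl h5 ⊢
  have h7 : (fun i => (Mx c x').det / (Mx c x).det * yh c x z i) = yh c x' z := by
    funext i
    have h8 := det_y c x' (yh c x z) hl i
    rw [yh_zero, yh_one] at h8
    have h9 : (Mx c x').det * yh c x z i = (Mx c x).det * yh c x' z i := by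
      rw [h8]
      show _ = (Mx c x).det * (Y0 c x' i + z * Y1 c x' i)
      ring
    rw [div_mul_eq_mul_div, div_eq_iff hD, h9]
    ring
  rw [h7] at h5
  exact h5

/-- the involution over `x` -/
theorem rz_ny (hm : 1 ≤ m) (N : ℕ) (x : I m → K) (z w : K) (h : Rz c x0 ξ0 y1 (2 * N + 2) x (yh c x z))
    (hA : Ah c x ≠ 0) (hw : Ah c x * w = - 2 * Bh c x - Ah c x * z) :
    Rz c x0 ξ0 y1 (2 * N + 3) x (yh c x w) := by
  have h1 := H2.Rz_ny hm (⟨N + 1, by ring⟩ : Even (2 * N + 2)) h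
  have h2 := H2.Rz_scale h1 one_ne_zero (inv_ne_zero hA)
  have h3 : (fun i => 1 * x i) = x := by
    funext i
    rw [one_mul]
  have h4 : (fun i => (Ah c x)⁻¹ * ny c x (yh c x z) i) = yh c x w := by
    funext i
    rw [ny_yh c x z w hw]
    show (Ah c x)⁻¹ * (Ah c x * yh c x w i) = _
    rw [← mul_assoc, inv_mul_cancel₀ hA, one_mul]
  rw [h3, h4] at h2
  exact h2

/-- the curves `2 N` and `2 N + 1` have the same `x`, `2 N + 1` and `2 N + 2` the same `y` -/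
theorem ch_same (N : ℕ) : (ch c x0 ξ0 y1 (2 * N + 1)).1 = (ch c x0 ξ0 y1 (2 * N)).1 ∧
    (ch c x0 ξ0 y1 (2 * N + 2)).2 = (ch c x0 ξ0 y1 (2 * N + 1)).2 := by
  refine ⟨?_, ?_⟩
  · rw [H2.ch_even c x0 ξ0 y1 (⟨N, by ring⟩ : Even (2 * N))]
  · rw [H2.ch_odd c x0 ξ0 y1 (⟨N, rfl⟩ : Odd (2 * N + 1))]

/-- the first coordinates of the next curve -/
theorem ch_even0 {N : ℕ} (hN : Even N) : (ch c x0 ξ0 y1 (N + 1)).1 = (ch c x0 ξ0 y1 N).1 ∧
    (ch c x0 ξ0 y1 (N + 1)).2 0 = Ah (fun e => Polynomial.C (c e)) (ch c x0 ξ0 y1 N).1 *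
      (ch c x0 ξ0 y1 N).2 0 := by
  rw [H2.ch_even c x0 ξ0 y1 hN]
  refine ⟨rfl, ?_⟩
  show Ah (fun e => Polynomial.C (c e)) (ch c x0 ξ0 y1 N).1 * (ch c x0 ξ0 y1 N).2 0 -
    2 * tf (fun e => Polynomial.C (c e)) (ch c x0 ξ0 y1 N).1
      (ch c x0 ξ0 y1 N).2 (Y1 (fun e => Polynomial.C (c e)) (ch c x0 ξ0 y1 N).1) * 0 = _
  rw [mul_zero, sub_zero]

/-- the first coordinates of the next curve -/
theorem ch_odd0 {N : ℕ} (hN : Odd N) : (ch c x0 ξ0 y1 (N + 1)).2 = (ch c x0 ξ0 y1 N).2 ∧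
    (ch c x0 ξ0 y1 (N + 1)).1 0 = sf (fun e => Polynomial.C (c e))
      (xh (fun e => Polynomial.C (c e)) (ch c x0 ξ0 y1 N).2)
      (xh (fun e => Polynomial.C (c e)) (ch c x0 ξ0 y1 N).2)
      (ch c x0 ξ0 y1 N).2 * (ch c x0 ξ0 y1 N).1 0 := by
  rw [H2.ch_odd c x0 ξ0 y1 hN]
  refine ⟨rfl, ?_⟩
  show sf (fun e => Polynomial.C (c e))
      (xh (fun e => Polynomial.C (c e)) (ch c x0 ξ0 y1 N).2)
      (xh (fun e => Polynomial.C (c e)) (ch c x0 ξ0 y1 N).2)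
      (ch c x0 ξ0 y1 N).2 * (ch c x0 ξ0 y1 N).1 0 -
    2 * sf (fun e => Polynomial.C (c e)) (ch c x0 ξ0 y1 N).1
      (xh (fun e => Polynomial.C (c e)) (ch c x0 ξ0 y1 N).2)
      (ch c x0 ξ0 y1 N).2 * 0 = _
  rw [mul_zero, sub_zero]

theorem ch_step {N : ℕ} (h : (ch c x0 ξ0 y1 (N + 1)).1 0 ≠ 0 ∧ (ch c x0 ξ0 y1 (N + 1)).2 0 ≠ 0) :
    (ch c x0 ξ0 y1 N).1 0 ≠ 0 ∧ (ch c x0 ξ0 y1 N).2 0 ≠ 0 := by
  rcases Nat.even_or_odd N with hN | hN
  · have h1 := ch_even0 c x0 ξ0 y1 hN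
    rw [h1.1, h1.2] at h
    exact ⟨h.1, right_ne_zero_of_mul h.2⟩
  · have h1 := ch_odd0 c x0 ξ0 y1 hN
    rw [h1.1, h1.2] at h
    exact ⟨right_ne_zero_of_mul h.1, h.2⟩

theorem ch_all (h : ∀ N0, ∃ N, N0 ≤ N ∧ (ch c x0 ξ0 y1 (2 * N + 2)).1 0 ≠ 0 ∧
      (ch c x0 ξ0 y1 (2 * N + 2)).2 0 ≠ 0) (N : ℕ) :
    (ch c x0 ξ0 y1 N).1 0 ≠ 0 ∧ (ch c x0 ξ0 y1 N).2 0 ≠ 0 := by
  obtain ⟨M, hM, h1⟩ := h N
  have h2 : ∀ d, ∀ N, N + d = 2 * M + 2 →
      (ch c x0 ξ0 y1 N).1 0 ≠ 0 ∧ (ch c x0 ξ0 y1 N).2 0 ≠ 0 := by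
    intro d
    induction d with
    | zero =>
      intro N hN
      rw [add_zero] at hN
      rw [hN]
      exact h1
    | succ d ih =>
      intro N hN
      exact ch_step c x0 ξ0 y1 (ih (N + 1) (by omega))
  exact h2 (2 * M + 2 - N) N (by omega)

/-- hx, hy, hA, hK of `Orb` follow when the first coordinates of the curves `2 N + 2` do not vanish
for arbitrarily large `N` (`(ny c x y) 0 = Ah * y 0`, `(nx c x y) 0 = q(ξ, ξ; y, y) * x 0`). -/
theorem ch_ne (h : ∀ N0, ∃ N, N0 ≤ N ∧ (ch c x0 ξ0 y1 (2 * N + 2)).1 0 ≠ 0 ∧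
      (ch c x0 ξ0 y1 (2 * N + 2)).2 0 ≠ 0) :
    (∀ N, (ch c x0 ξ0 y1 N).1 0 ≠ 0) ∧ (∀ N, (ch c x0 ξ0 y1 N).2 0 ≠ 0) ∧
    (∀ N, Ah (fun e => Polynomial.C (c e)) (ch c x0 ξ0 y1 N).1 ≠ 0) ∧
    ∀ N, 1 ≤ N → sf (fun e => Polynomial.C (c e))
      (xh (fun e => Polynomial.C (c e)) (ch c x0 ξ0 y1 N).2)
      (xh (fun e => Polynomial.C (c e)) (ch c x0 ξ0 y1 N).2)
      (ch c x0 ξ0 y1 N).2 ≠ 0 := by
  have h1 := ch_all c x0 ξ0 y1 h
  refine ⟨fun N => (h1 N).1, fun N => (h1 N).2, fun N => ?_, fun N hN => ?_⟩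
  · rcases Nat.even_or_odd N with hN | hN
    · have h2 := (h1 (N + 1)).2
      rw [(ch_even0 c x0 ξ0 y1 hN).2] at h2
      exact left_ne_zero_of_mul h2
    · obtain ⟨M, rfl⟩ := hN
      have h2 := (h1 (2 * M + 1)).2
      rw [(ch_even0 c x0 ξ0 y1 (⟨M, by ring⟩ : Even (2 * M))).2] at h2
      rw [(ch_same c x0 ξ0 y1 M).1]
      exact left_ne_zero_of_mul h2
  · rcases Nat.even_or_odd N with hN' | hN'
    · obtain ⟨M, hM⟩ := hN'
      obtain ⟨M', rfl⟩ : ∃ M', N = 2 * M' + 2 := ⟨M - 1, by omega⟩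
      have h2 := (h1 (2 * M' + 2)).1
      rw [(ch_odd0 c x0 ξ0 y1 (⟨M', rfl⟩ : Odd (2 * M' + 1))).2] at h2
      rw [(ch_same c x0 ξ0 y1 M').2]
      exact left_ne_zero_of_mul h2
    · have h2 := (h1 (N + 1)).1
      rw [(ch_odd0 c x0 ξ0 y1 hN').2] at h2
      exact left_ne_zero_of_mul h2

end chain

section zero

/-- A form which vanishes on a curve vanishes at its points. -/
theorem zero_at {p : ℕ} [Fact p.Prime] {m : ℕ} (c : Ix m → ℤ_[p]) (k : Un m → ℤ_[p]) (N : ℕ)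
    (F : MvPolynomial (I m) (PadicAlgCl p)) (e : ℕ) (hF : F.IsHomogeneous e)
    (x : Fin (m + 1) → ℤ_[p]) (z : ℤ_[p]) (h : Rp c k N x z) :
    (aeval (fun i => ((ch (cp c) (cp (aff fun i => k (.inl i))) (cp (xh c (sy c k)))
        (cp (sy c k)) N).1 i).map (algebraMap ℚ_[p] (PadicAlgCl p))) F = 0 →
      aeval (fun i => algebraMap ℚ_[p] (PadicAlgCl p) (cp (aff x) i)) F = 0) ∧
    (aeval (fun i => ((ch (cp c) (cp (aff fun i => k (.inl i))) (cp (xh c (sy c k)))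
        (cp (sy c k)) N).2 i).map (algebraMap ℚ_[p] (PadicAlgCl p))) F = 0 →
      aeval (fun i => algebraMap ℚ_[p] (PadicAlgCl p) (cp (yh c (aff x) z) i)) F = 0) := by
  have h1 := H2.Rz_map (algebraMap ℚ_[p] (PadicAlgCl p)) h
  refine ⟨fun h0 => ?_, fun h0 => ?_⟩
  · have h2 := H2.aeval_fst_zero hF h0 h1
    rw [← h2]
    rfl
  · have h2 := H2.aeval_snd_zero hF h0 h1
    rw [← h2]
    rfl

end zero

end Pool.Agent.Helper37.H2.P
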