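import Pool.Agent.Helper24.H2.Defs

/-!
# Type 2: naturality and homogeneity of the functions of `Helper24/H2/Defs`
-/

set_option autoImplicit false

namespace Pool.Agent.Helper37.H2

open MvPolynomial Pool.Agent.Helper24.H2
open Pool.Agent.Helper28.HN (I Un En cr aff)

section map

variable {m : ℕ} {S T : Type*} [CommRing S] [CommRing T] (f : S →+* T)

theorem map_single (i : I m) : (fun j => f ((Pi.single i 1 : I m → S) j)) = Pi.single i 1 := by
  funext j
  by_cases h : j = i
  · subst h
    simp
  · simp [Pi.single_eq_of_ne h]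

theorem map_bf (c : Ix m → S) (r : Bi m) (x y : I m → S) :
    f (bf c r x y) = bf (fun e => f (c e)) r (fun i => f (x i)) (fun i => f (y i)) := by
  simp only [bf, map_sum, map_mul]

theorem map_sf (c : Ix m → S) (x x' y : I m → S) :
    f (sf c x x' y) = sf (fun e => f (c e)) (fun i => f (x i)) (fun i => f (x' i))
      (fun i => f (y i)) := by
  simp only [sf, map_sum, map_mul, map_add]

theorem map_tf (c : Ix m → S) (x y y' : I m → S) :
    f (tf c x y y') = tf (fun e => f (c e)) (fun i => f (x i)) (fun i => f (y i))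
      (fun i => f (y' i)) := by
  simp only [tf, map_sum, map_mul, map_add]

theorem map_lx (c : Ix m → S) (r : Fin m) (x y : I m → S) :
    f (lx c r x y) = lx (fun e => f (c e)) r (fun i => f (x i)) (fun i => f (y i)) := by
  unfold lx
  split_ifs
  · exact map_bf f _ _ _ _
  · exact map_sf f _ _ _ _

theorem map_ly (c : Ix m → S) (r : Fin m) (x y : I m → S) :
    f (ly c r x y) = ly (fun e => f (c e)) r (fun i => f (x i)) (fun i => f (y i)) := by
  unfold ly
  split_ifs
  · exact map_bf f _ _ _ _
  · exact map_tf f _ _ _ _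

theorem map_Mx (c : Ix m → S) (x : I m → S) :
    (Mx c x).map f = Mx (fun e => f (c e)) (fun i => f (x i)) := by
  ext r b
  simp only [Mx, Matrix.map_apply, map_lx, map_single]

theorem map_Nx (c : Ix m → S) (y : I m → S) :
    (Nx c y).map f = Nx (fun e => f (c e)) (fun i => f (y i)) := by
  ext r b
  simp only [Nx, Matrix.map_apply, map_ly, map_single]

theorem map_det (M : Matrix (Fin m) (Fin m) S) : f M.det = (M.map f).det := by
  rw [f.map_det]
  rfl

theorem map_adj (M : Matrix (Fin m) (Fin m) S) (b : Fin m → S) (i : Fin m) :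
    f (M.adjugate.mulVec b i) = (M.map f).adjugate.mulVec (fun j => f (b j)) i := by
  have h := RingHom.map_adjugate f M
  have h2 : (M.map f).adjugate = M.adjugate.map f := h.symm
  rw [h2]
  simp only [Matrix.mulVec, dotProduct, map_sum, map_mul, Matrix.map_apply]

theorem map_Y0 (c : Ix m → S) (x : I m → S) (i : I m) :
    f (Y0 c x i) = Y0 (fun e => f (c e)) (fun i => f (x i)) i := by
  unfold Y0
  refine Fin.cases ?_ (fun i => Fin.cases ?_ (fun i => ?_) i) i
  · simp only [Fin.cons_zero]
    rw [map_det, map_Mx]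
  · simp only [Fin.cons_zero, Fin.cons_succ, map_zero]
  · simp only [Fin.cons_succ, Pi.neg_apply, map_neg]
    rw [map_adj, map_Mx]
    simp only [map_lx, map_single]

theorem map_Y1 (c : Ix m → S) (x : I m → S) (i : I m) :
    f (Y1 c x i) = Y1 (fun e => f (c e)) (fun i => f (x i)) i := by
  unfold Y1
  refine Fin.cases ?_ (fun i => Fin.cases ?_ (fun i => ?_) i) i
  · simp only [Fin.cons_zero, map_zero]
  · simp only [Fin.cons_zero, Fin.cons_succ]
    rw [map_det, map_Mx]
  · simp only [Fin.cons_succ, Pi.neg_apply, map_neg]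
    rw [map_adj, map_Mx]
    simp only [map_lx, map_single]

theorem map_vh (c : Ix m → S) (y : I m → S) (i : Fin (m + 1)) :
    f (vh c y i) = vh (fun e => f (c e)) (fun i => f (y i)) i := by
  unfold vh
  refine Fin.lastCases ?_ (fun i => ?_) i
  · simp only [Fin.snoc_last]
    rw [map_det, map_Nx]
  · simp only [Fin.snoc_castSucc, Pi.neg_apply, map_neg]
    rw [map_adj, map_Nx]
    simp only [map_ly, map_single]

theorem map_xh (c : Ix m → S) (y : I m → S) (i : I m) :
    f (xh c y i) = xh (fun e => f (c e)) (fun i => f (y i)) i := by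
  unfold xh
  refine Fin.cases ?_ (fun i => ?_) i
  · simp only [Fin.cons_zero, map_zero]
  · simp only [Fin.cons_succ, map_vh]

theorem map_nx (c : Ix m → S) (x y : I m → S) (i : I m) :
    f (nx c x y i) = nx (fun e => f (c e)) (fun i => f (x i)) (fun i => f (y i)) i := by
  simp only [nx, map_sub, map_mul, map_ofNat, map_sf, map_xh]

theorem map_Ah (c : Ix m → S) (x : I m → S) :
    f (Ah c x) = Ah (fun e => f (c e)) (fun i => f (x i)) := by
  simp only [Ah, map_tf, map_Y1]

theorem map_ny (c : Ix m → S) (x y : I m → S) (i : I m) :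
    f (ny c x y i) = ny (fun e => f (c e)) (fun i => f (x i)) (fun i => f (y i)) i := by
  simp only [ny, map_sub, map_mul, map_ofNat, map_tf, map_Y1, map_Ah]

end map

section smul

variable {m : ℕ} {S : Type*} [CommRing S]

theorem bf_smul (c : Ix m → S) (r : Bi m) (a b : S) (x y : I m → S) :
    bf c r (fun i => a * x i) (fun i => b * y i) = a * b * bf c r x y := by
  simp only [bf, Finset.mul_sum]
  refine Finset.sum_congr rfl fun i _ => Finset.sum_congr rfl fun j _ => ?_
  ring

theorem sf_smul (c : Ix m → S) (a a' b : S) (x x' y : I m → S) :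
    sf c (fun i => a * x i) (fun i => a' * x' i) (fun i => b * y i) = a * a' * b * sf c x x' y := by
  simp only [sf, Finset.mul_sum]
  refine Finset.sum_congr rfl fun i _ => Finset.sum_congr rfl fun j _ =>
    Finset.sum_congr rfl fun k _ => ?_
  ring

theorem tf_smul (c : Ix m → S) (a b b' : S) (x y y' : I m → S) :
    tf c (fun i => a * x i) (fun i => b * y i) (fun i => b' * y' i) = a * b * b' * tf c x y y' := by
  simp only [tf, Finset.mul_sum]
  refine Finset.sum_congr rfl fun i _ => Finset.sum_congr rfl fun j _ =>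
    Finset.sum_congr rfl fun k _ => ?_
  ring

/-- The degree of the row `r` of `Mx` and `Nx`. -/
def rd (m : ℕ) (r : Fin m) : ℕ := if r.val + 1 < m then 1 else 2

theorem lx_smul_left (c : Ix m → S) (r : Fin m) (a : S) (x y : I m → S) :
    lx c r (fun i => a * x i) y = a ^ rd m r * lx c r x y := by
  unfold lx rd
  split_ifs with h
  · have := bf_smul c ⟨r, h⟩ a 1 x y
    simpa using this
  · have := sf_smul c a a 1 x x y
    simp only [one_mul, mul_one] at this
    rw [this, pow_two]

theorem ly_smul_right (c : Ix m → S) (r : Fin m) (b : S) (x y : I m → S) :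
    ly c r x (fun i => b * y i) = b ^ rd m r * ly c r x y := by
  unfold ly rd
  split_ifs with h
  · have := bf_smul c ⟨r, h⟩ 1 b x y
    simpa using this
  · have := tf_smul c 1 b b x y y
    simp only [one_mul, mul_one] at this
    rw [this, pow_two]

theorem prod_rd (hm : 1 ≤ m) (a : S) : ∏ r : Fin m, a ^ rd m r = a ^ (m + 1) := by
  obtain ⟨n, rfl⟩ : ∃ n, m = n + 1 := ⟨m - 1, by omega⟩
  rw [Fin.prod_univ_castSucc]
  have h1 : ∀ i : Fin n, a ^ rd (n + 1) i.castSucc = a := by
    intro i
    have : rd (n + 1) i.castSucc = 1 := by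
      unfold rd
      rw [if_pos]
      have := i.isLt
      simp only [Fin.val_castSucc]
      omega
    rw [this, pow_one]
  have h2 : a ^ rd (n + 1) (Fin.last n) = a ^ 2 := by
    have : rd (n + 1) (Fin.last n) = 2 := by
      unfold rd
      rw [if_neg]
      simp
    rw [this]
  rw [h2, Finset.prod_congr rfl fun i _ => h1 i, Finset.prod_const, Finset.card_univ,
    Fintype.card_fin, ← pow_add]

theorem Mx_smul (c : Ix m → S) (a : S) (x : I m → S) :
    Mx c (fun i => a * x i) = Matrix.diagonal (fun r => a ^ rd m r) * Mx c x := by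
  ext r b
  rw [Matrix.diagonal_mul]
  exact lx_smul_left c r a x _

theorem Nx_smul (c : Ix m → S) (b : S) (y : I m → S) :
    Nx c (fun i => b * y i) = Matrix.diagonal (fun r => b ^ rd m r) * Nx c y := by
  ext r i
  rw [Matrix.diagonal_mul]
  exact ly_smul_right c r b _ y

theorem adj_diag (e : Fin m → S) (M : Matrix (Fin m) (Fin m) S) (v : Fin m → S) :
    (Matrix.diagonal e * M).adjugate.mulVec (fun r => e r * v r) =
      (∏ r, e r) • M.adjugate.mulVec v := by
  have h1 : (fun r => e r * v r) = (Matrix.diagonal e).mulVec v := by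
    funext r
    rw [Matrix.mulVec_diagonal]
  rw [h1, Matrix.adjugate_mul_distrib, Matrix.mulVec_mulVec, Matrix.mul_assoc,
    Matrix.adjugate_mul, Matrix.det_diagonal, Matrix.mul_smul, Matrix.mul_one, Matrix.smul_mulVec]

theorem dMx_smul (hm : 1 ≤ m) (c : Ix m → S) (a : S) (x : I m → S) :
    (Mx c fun i => a * x i).det = a ^ (m + 1) * (Mx c x).det := by
  rw [Mx_smul, Matrix.det_mul, Matrix.det_diagonal, prod_rd hm]

theorem dNx_smul (hm : 1 ≤ m) (c : Ix m → S) (b : S) (y : I m → S) :
    (Nx c fun i => b * y i).det = b ^ (m + 1) * (Nx c y).det := by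
  rw [Nx_smul, Matrix.det_mul, Matrix.det_diagonal, prod_rd hm]

theorem Y0_smul (hm : 1 ≤ m) (c : Ix m → S) (a : S) (x : I m → S) :
    Y0 c (fun i => a * x i) = fun i => a ^ (m + 1) * Y0 c x i := by
  funext i
  refine Fin.cases ?_ (fun i => Fin.cases ?_ (fun j => ?_) i) i
  · exact dMx_smul hm c a x
  · exact (mul_zero _).symm
  · show -(((Mx c fun i => a * x i).adjugate.mulVec
        fun r => lx c r (fun i => a * x i) (Pi.single 0 1)) j) =
      a ^ (m + 1) * -(((Mx c x).adjugate.mulVec fun r => lx c r x (Pi.single 0 1)) j)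
    simp only [lx_smul_left]
    rw [Mx_smul, adj_diag, prod_rd hm, Pi.smul_apply, smul_eq_mul, mul_neg]

theorem Y1_smul (hm : 1 ≤ m) (c : Ix m → S) (a : S) (x : I m → S) :
    Y1 c (fun i => a * x i) = fun i => a ^ (m + 1) * Y1 c x i := by
  funext i
  refine Fin.cases ?_ (fun i => Fin.cases ?_ (fun j => ?_) i) i
  · exact (mul_zero _).symm
  · exact dMx_smul hm c a x
  · show -(((Mx c fun i => a * x i).adjugate.mulVec
        fun r => lx c r (fun i => a * x i) (Pi.single 1 1)) j) =
      a ^ (m + 1) * -(((Mx c x).adjugate.mulVec fun r => lx c r x (Pi.single 1 1)) j)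
    simp only [lx_smul_left]
    rw [Mx_smul, adj_diag, prod_rd hm, Pi.smul_apply, smul_eq_mul, mul_neg]

theorem vh_smul (hm : 1 ≤ m) (c : Ix m → S) (b : S) (y : I m → S) :
    vh c (fun i => b * y i) = fun i => b ^ (m + 1) * vh c y i := by
  funext i
  refine Fin.lastCases ?_ (fun j => ?_) i
  · simp only [vh, Fin.snoc_last]
    exact dNx_smul hm c b y
  · simp only [vh, Fin.snoc_castSucc, Pi.neg_apply]
    simp only [ly_smul_right]
    rw [Nx_smul, adj_diag, prod_rd hm, Pi.smul_apply, smul_eq_mul, mul_neg]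

theorem xh_smul (hm : 1 ≤ m) (c : Ix m → S) (b : S) (y : I m → S) :
    xh c (fun i => b * y i) = fun i => b ^ (m + 1) * xh c y i := by
  funext i
  refine Fin.cases ?_ (fun j => ?_) i
  · exact (mul_zero _).symm
  · exact congrFun (vh_smul hm c b y) j

theorem yh_smul (hm : 1 ≤ m) (c : Ix m → S) (a : S) (x : I m → S) (z : S) :
    yh c (fun i => a * x i) z = fun i => a ^ (m + 1) * yh c x z i := by
  funext i
  show Y0 c (fun i => a * x i) i + z * Y1 c (fun i => a * x i) i =
    a ^ (m + 1) * (Y0 c x i + z * Y1 c x i)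
  rw [Y0_smul hm, Y1_smul hm]
  ring

theorem Ah_smul (hm : 1 ≤ m) (c : Ix m → S) (a : S) (x : I m → S) :
    Ah c (fun i => a * x i) = a ^ (2 * m + 3) * Ah c x := by
  rw [Ah, Y1_smul hm, tf_smul, Ah]
  ring

theorem Kx_smul (hm : 1 ≤ m) (c : Ix m → S) (b : S) (y : I m → S) :
    sf c (xh c fun i => b * y i) (xh c fun i => b * y i) (fun i => b * y i) =
      b ^ (2 * m + 3) * sf c (xh c y) (xh c y) y := by
  rw [xh_smul hm, sf_smul]
  ring

theorem nx_smul (hm : 1 ≤ m) (c : Ix m → S) (a b : S) (x y : I m → S) (i : I m) :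
    nx c (fun i => a * x i) (fun i => b * y i) i = a * b ^ (2 * m + 3) * nx c x y i := by
  show sf c (xh c fun i => b * y i) (xh c fun i => b * y i) (fun i => b * y i) * (a * x i) -
      2 * sf c (fun i => a * x i) (xh c fun i => b * y i) (fun i => b * y i) *
        xh c (fun i => b * y i) i =
    a * b ^ (2 * m + 3) * (sf c (xh c y) (xh c y) y * x i - 2 * sf c x (xh c y) y * xh c y i)
  rw [Kx_smul hm, xh_smul hm, sf_smul]
  ring

theorem ny_smul (hm : 1 ≤ m) (c : Ix m → S) (a b : S) (x y : I m → S) (i : I m) :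
    ny c (fun i => a * x i) (fun i => b * y i) i = a ^ (2 * m + 3) * b * ny c x y i := by
  show Ah c (fun i => a * x i) * (b * y i) -
      2 * tf c (fun i => a * x i) (fun i => b * y i) (Y1 c fun i => a * x i) *
        Y1 c (fun i => a * x i) i =
    a ^ (2 * m + 3) * b * (Ah c x * y i - 2 * tf c x y (Y1 c x) * Y1 c x i)
  rw [Ah_smul hm, Y1_smul hm, tf_smul]
  ring

end smul

end Pool.Agent.Helper37.H2
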